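import Mathlib
import Pool.Agent.H2Z.REc

set_option autoImplicit false

namespace Pool.Agent.Results.MP_d581c5_al.ProperCounterexample

open scoped Pointwise

/-- A length function on a group. -/
def IsLength {G : Type} [Group G] (L : G → ℝ) : Prop :=
  (∀ g, 0 ≤ L g) ∧ L 1 = 0 ∧ (∀ g, L g⁻¹ = L g) ∧ ∀ g h, L (g * h) ≤ L g + L h

/-- Property RD (rapid decay). -/
def HasRD {G : Type} [Group G] (L : G → ℝ) : Prop :=
  ∃ P : Polynomial ℝ, ∀ r : ℝ, 0 < r → ∀ φ : G →₀ ℂ, (∀ g ∈ φ.support, L g ≤ r) →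
    ∀ ψ : G → ℂ, Summable (fun g => ‖ψ g‖ ^ 2) →
      ∑' g, ‖∑ h ∈ φ.support, φ h * ψ (h⁻¹ * g)‖ ^ 2
        ≤ P.eval r * (∑' g, ‖φ g‖ ^ 2) * (∑' g, ‖ψ g‖ ^ 2)

theorem result : ∃ L : FreeGroup ℕ → ℝ, IsLength L ∧
    (∀ r : ℝ, {g | L g ≤ r}.Finite) ∧
    (∀ r : ℝ, 0 < r → ∀ S X : Finset (FreeGroup ℕ), (∀ s ∈ S, L s ≤ r) →
      (S.card : ℝ) * (X.card : ℝ) / (16 * (1 + r)) ≤ ((S * X).card : ℝ)) ∧
    ¬ HasRD L := by
  refine ⟨fun g => (Pool.Agent.H2Z.RE.len g : ℝ), ⟨fun g => Nat.cast_nonneg _,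
    by simp [Pool.Agent.H2Z.RE.len_one], fun g => by simp only [Pool.Agent.H2Z.RE.len_inv],
    fun g h => by simp only; exact_mod_cast Pool.Agent.H2Z.RE.len_mul g h⟩, fun r => ?_, fun r hr S X hS => ?_,
    ?_⟩
  · exact (Pool.Agent.H2Z.RE.len_finite ⌊r⌋₊).subset (fun g hg => Nat.le_floor hg)
  · rw [div_le_iff₀ (by positivity), mul_comm ((S * X).card : ℝ)]
    exact Pool.Agent.H2Z.RE.RE_real r hr.le S X hS
  · rintro ⟨P, hP⟩
    obtain ⟨r, φ, ψ, hr, h1, h2⟩ := Pool.Agent.H2Z.RE.not_RD' P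
    refine absurd (hP r hr φ h1 ψ ?_) (not_le.2 h2)
    apply summable_of_hasFiniteSupport
    exact ψ.hasFiniteSupport.subset (fun g hg h0 => hg (by simp [h0]))

end Pool.Agent.Results.MP_d581c5_al.ProperCounterexample
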